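import Pool.Agent.Y203.Biased.Main

set_option autoImplicit false

open MeasureTheory ProbabilityTheory Filter Topology

namespace Pool.Agent.Results.MP_417bbc_pr.NonEroders

open Pool.Agent.H443R3 Pool.Agent.Y203.Biased
open Pool.Agent.Results.MP_417bbc_pr.BiasedNoiseErgodic (errorLevel)

/-- **A monotone binary automaton which does not erode the finite islands of one of its symbols
becomes ergodic under suitable arbitrarily small positive noise.** -/
theorem result :
    -- (1) Every dimension, every monotone automaton, every symbol `b` some finite island of which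
    -- (in a sea of the other symbol) never disappears: for every rate `ε` of errors towards `b`
    -- the perturbed automaton is ergodic as soon as the rate of the opposite errors is small
    (∀ (d : ℕ) (F : MCA d) (b : Bool), ¬ F.Erodes b → ∀ ε : ℝ, 0 < ε → ε < 1 →
      ∃ δ₀ : ℝ, 0 < δ₀ ∧ ∀ δ : ℝ, 0 ≤ δ → δ < δ₀ → ∀ θ : Bool → PMF Bool,
        θ (!b) b = ENNReal.ofReal ε → θ b (!b) = ENNReal.ofReal δ →
          ∃ π : Measure (Config d Bool), ErgodicWith (noisy F θ) π) ∧
    -- (2) The converse of Toom's stability theorem: if all positive zero-range noises of error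
    -- level at most some `ε₀ > 0` make `F` non-ergodic, then `F` erodes the finite islands of both
    -- symbols
    (∀ (d : ℕ) (F : MCA d) (ε₀ : ℝ), 0 < ε₀ →
      (∀ θ : Bool → PMF Bool, (∀ a c, 0 < θ a c) → errorLevel θ ≤ ε₀ →
        ¬ ∃ π : Measure (Config d Bool), ErgodicWith (noisy F θ) π) →
      F.Erodes false ∧ F.Erodes true) ∧
    -- (3) Nearest neighbour majority in every dimension (the question is the case `d = 2`): for
    -- every `ε₀ > 0` some positive zero-range noise of error level at most `ε₀` makes it ergodic;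
    -- more precisely so does, for both symbols `b` and every rate `ε` of errors towards `b`, every
    -- noise whose rate of opposite errors is small enough
    (∀ d : ℕ, (∀ ε₀ : ℝ, 0 < ε₀ → ∃ θ : Bool → PMF Bool, (∀ a c, 0 < θ a c) ∧ errorLevel θ ≤ ε₀ ∧
        ∃ π : Measure (Config d Bool), ErgodicWith (noisy (majority d) θ) π) ∧
      ∀ (b : Bool) (ε : ℝ), 0 < ε → ε < 1 → ∃ δ₀ : ℝ, 0 < δ₀ ∧ ∀ δ : ℝ, 0 ≤ δ → δ < δ₀ →
        ∀ θ : Bool → PMF Bool, θ (!b) b = ENNReal.ofReal ε → θ b (!b) = ENNReal.ofReal δ →
          ∃ π : Measure (Config d Bool), ErgodicWith (noisy (majority d) θ) π) := by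
  refine ⟨fun d F b hF ε hε hε1 => ergodic_of_not_erodes F b hF hε hε1, ?_, fun d => ⟨?_, ?_⟩⟩
  · intro d F ε₀ hε₀ h
    constructor
    · by_contra hcon
      obtain ⟨θ, hpos, herr, hπ⟩ := exists_noise F false hcon hε₀
      exact h θ hpos herr hπ
    · by_contra hcon
      obtain ⟨θ, hpos, herr, hπ⟩ := exists_noise F true hcon hε₀
      exact h θ hpos herr hπ
  · intro ε₀ hε₀
    exact exists_noise (majority d) true (majority_not_erodes d true) hε₀
  · intro b ε hε hε1
    exact ergodic_of_not_erodes (majority d) b (majority_not_erodes d b) hε hε1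

end Pool.Agent.Results.MP_417bbc_pr.NonEroders
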