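import Mathlib
import Pool.Agent.Y992.ND.Gen4

set_option autoImplicit false

open MeasureTheory ProbabilityTheory Filter Topology
open scoped ENNReal Pointwise

/-!
# Monotone automata in which a finite island survives are ergodic under suitable small noise

`Site d = ℤ^d`, `Config d Bool = {0,1}^(ℤ^d)` (`true = 1`), `CA N m` is the deterministic automaton
with the finite neighbourhood `N` and the local rule `m`, `noisy N m θ` its perturbation by the
zero-range noise `θ`, `Erodes N m b` says that every finite island of the symbol `b` in a sea of the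
other symbol disappears, `ExpErgodic Φ π` is ergodicity with a uniform exponential rate for all
cylinders.

1. For every monotone rule (all dimensions, all neighbourhoods) and every symbol `b` whose islands
   are not all eroded, every perturbation `Φ` with neighbourhood in a given finite set `N'` (not
   necessarily monotone or zero-range) which always produces `b` with probability at least `τ` and
   makes errors away from `b` with probability at most `c τ^K` is ergodic, exponentially fast, and
   its invariant law has density of `b` at least `1 - η`.  In particular this holds for all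
   zero-range noises `θ` in the region `θ(b,1-b) ≤ c θ(1-b,b)^K`, `θ(1-b,b) > 0`.
2. Hence the assertion of the question (non-ergodicity for all small positive noises) can only hold
   for monotone rules which erode the finite islands of both symbols.  (Conversely, by Toom's
   stability theorem of 1980, it does hold for these rules.)
3. Monotone rules invariant under reflection of space and under exchange of the symbols erode the
   islands of neither symbol; in particular so do all majority rules with a symmetric neighbourhood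
   of odd size, in every dimension.
4. The nearest-neighbour majority automaton of the question is such a rule: the answer to Q1 is no.
-/

namespace Pool.Agent.Results.MP_417bbc_pr.NonErodersErgodic

open Pool.Agent.H443R3 Pool.Agent.Y992.ND
open Pool.Agent.Results.MP_417bbc_pr.BiasedNoiseErgodic (errorLevel noisyMajority maj)

theorem maj_eq : maj = majority BiasedNoiseErgodic.N := by
  funext u
  unfold maj majority
  have hc : BiasedNoiseErgodic.N.card = 5 := by decide
  rw [hc]
  congr 1
  rw [eq_iff_iff]
  constructor <;> intro h <;> omega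

theorem N_symm : ∀ n ∈ BiasedNoiseErgodic.N, -n ∈ BiasedNoiseErgodic.N := by decide

theorem result :
    -- 1. arbitrary perturbations
    (∀ (d : ℕ) (N : Finset (Site d)) (m : (N → Bool) → Bool), Monotone m →
      ∀ b : Bool, ¬ Erodes N m b → ∀ (N' : Finset (Site d)) (η : ℝ), 0 < η →
      ∃ c : ℝ, 0 < c ∧ ∃ K : ℕ, ∀ (Φ : PCA d Bool) (τ δ : ℝ), Φ.nbhd ⊆ N' → 0 < τ → 0 ≤ δ →
        δ ≤ c * τ ^ K →
        (∀ (x : Config d Bool) (i : Site d), τ ≤ (Φ.rule (Φ.pattern x i) b).toReal) →
        (∀ (x : Config d Bool) (i : Site d), CA N m x i = b →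
          1 - δ ≤ (Φ.rule (Φ.pattern x i) b).toReal) →
        ∃ π : Measure (Config d Bool), ExpErgodic Φ π ∧
          ∀ i, 1 - η ≤ (π {x | x i = b}).toReal) ∧
    -- zero-range noises
    (∀ (d : ℕ) (N : Finset (Site d)) (m : (N → Bool) → Bool), Monotone m →
      ∀ b : Bool, ¬ Erodes N m b → ∀ η : ℝ, 0 < η → ∃ c : ℝ, 0 < c ∧ ∃ K : ℕ,
        ∀ θ : Bool → PMF Bool, 0 < (θ (!b) b).toReal →
          (θ (!b) b).toReal + (θ b (!b)).toReal ≤ 1 →
          (θ b (!b)).toReal ≤ c * (θ (!b) b).toReal ^ K →
          ∃ π : Measure (Config d Bool), ExpErgodic (noisy N m θ) π ∧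
            ∀ i, 1 - η ≤ (π {x | x i = b}).toReal) ∧
    -- 2. stability against all small noises forces erosion of both symbols
    (∀ (d : ℕ) (N : Finset (Site d)) (m : (N → Bool) → Bool), Monotone m →
      (∃ ε₀ : ℝ, 0 < ε₀ ∧ ∀ θ : Bool → PMF Bool, (∀ a c, 0 < θ a c) → errorLevel θ ≤ ε₀ →
        ¬ ∃ π : Measure (Config d Bool), ErgodicWith (noisy N m θ) π) →
      Erodes N m true ∧ Erodes N m false) ∧
    -- 3. symmetric rules erode nothing
    (∀ (d : ℕ) (N : Finset (Site d)) (hN : ∀ n ∈ N, -n ∈ N) (m : (N → Bool) → Bool), Monotone m →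
      (∀ u : N → Bool, m (fun n => u ⟨-n.1, hN n.1 n.2⟩) = m u) →
      (∀ u : N → Bool, m (fun n => !u n) = !m u) → ∀ b : Bool, ¬ Erodes N m b) ∧
    (∀ (d : ℕ) (N : Finset (Site d)), (∀ n ∈ N, -n ∈ N) → Odd N.card →
      ∀ b : Bool, ¬ Erodes N (majority N) b) ∧
    -- 4. the automaton of the question
    (∀ θ : Bool → PMF Bool,
      noisyMajority θ = noisy BiasedNoiseErgodic.N (majority BiasedNoiseErgodic.N) θ) ∧
    (∀ ε₀ : ℝ, 0 < ε₀ → ∃ θ : Bool → PMF Bool, (∀ a c, 0 < θ a c) ∧ errorLevel θ ≤ ε₀ ∧
      ∃ π : Measure (Config 2 Bool), ErgodicWith (noisyMajority θ) π) := by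
  have h4 : ∀ (d : ℕ) (N : Finset (Site d)), (∀ n ∈ N, -n ∈ N) → Odd N.card →
      ∀ b : Bool, ¬ Erodes N (majority N) b := fun d N hN hodd b =>
    not_erodes_symm majority_mono hN (majority_refl hN) (majority_dual hodd) b
  have h5 : ∀ θ : Bool → PMF Bool,
      noisyMajority θ = noisy BiasedNoiseErgodic.N (majority BiasedNoiseErgodic.N) θ := by
    intro θ
    rw [← maj_eq]
    rfl
  refine ⟨fun d N m hm b hb N' η hη => ?_, fun d N m hm b hb η hη => cusp hm b hb hη,
    fun d N m hm h => ?_,
    fun d N hN m hm hr hd b => not_erodes_symm hm hN hr hd b, h4, h5, fun ε₀ hε₀ => ?_⟩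
  · obtain ⟨c, hc, K, h⟩ := gen hm b hb N' hη
    exact ⟨c, hc, K, fun Φ τ δ hΦ hτ hδ hcδ h1 h2 => h Φ τ δ hΦ hτ hδ hcδ ⟨h1, h2⟩⟩
  · obtain ⟨ε₀, hε₀, h⟩ := h
    have key : ∀ b, Erodes N m b := by
      intro b
      by_contra hb
      obtain ⟨θ, k1, k2, k3⟩ := small_noise_ergodic hm b hb hε₀
      exact h θ k1 k2 k3
    exact ⟨key true, key false⟩
  · obtain ⟨θ, k1, k2, k3⟩ := small_noise_ergodic (m := majority BiasedNoiseErgodic.N)
      majority_mono true (h4 2 _ N_symm (by decide) true) hε₀
    exact ⟨θ, k1, k2, by rw [h5]; exact k3⟩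

end Pool.Agent.Results.MP_417bbc_pr.NonErodersErgodic
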